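import Mathlib
import Pool.Agent.H15.Psc9

set_option autoImplicit false

open Filter Topology

namespace Pool.Agent.Results.MP_b5ec3e_gt.Reflexive

/-- Every continuous real function is bounded. -/
def IsPseudocompact (X : Type) [TopologicalSpace X] : Prop :=
  ∀ f : X → ℝ, Continuous f → ∃ M : ℝ, ∀ x, |f x| ≤ M

/-- Selectively pseudocompact spaces. -/
def SelectivelyPseudocompact (X : Type) [TopologicalSpace X] : Prop :=
  ∀ U : ℕ → Set X, (∀ n, IsOpen (U n) ∧ (U n).Nonempty) →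
    ∃ x : ℕ → X, (∀ n, x n ∈ U n) ∧ ∃ a : X, ∀ V ∈ 𝓝 a, {n | x n ∈ V}.Infinite

/-- The evaluation map to the second Pontryagin dual is a topological isomorphism. -/
def IsReflexive (G : Type) [CommGroup G] [TopologicalSpace G] : Prop :=
  ∃ e : G ≃ₜ* PontryaginDual (PontryaginDual G), ∀ (x : G) (χ : PontryaginDual G), e x χ = χ x

theorem result (G : Type) [CommGroup G] [Infinite G]
    (h : ∃ t : TopologicalSpace G, @IsTopologicalGroup G t _ ∧ @T2Space G t ∧
      @IsPseudocompact G t) :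
    ∃ t : TopologicalSpace G, @IsTopologicalGroup G t _ ∧ @T2Space G t ∧ @IsPseudocompact G t ∧
      ¬ @SelectivelyPseudocompact G t ∧ @IsReflexive G _ t := by
  obtain ⟨t, h1, h2, h3, ⟨U, hU, h4⟩, h5⟩ := Pool.Agent.H15.Psc.main3 G h
  refine ⟨t, h1, h2, h3, fun h => ?_, h5⟩
  obtain ⟨x, hx, a, ha⟩ := h U hU
  exact h4 x hx a (mapClusterPt_iff_frequently.2 fun V hV =>
    Nat.frequently_atTop_iff_infinite.2 (ha V hV))

end Pool.Agent.Results.MP_b5ec3e_gt.Reflexive
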